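import Mathlib

/-!
# Geodesic Leech labelings of wheels

The wheels `W_7`, `W_8` and `W_9` are geodesic Leech graphs.
-/

set_option autoImplicit false

namespace Pool.Agent.Results.MP_071a69_co.Wheels

section definitions

variable {V : Type} [DecidableEq V]

/-- The geodesic paths of `G` (with at least one edge, a path and its reverse being the same
geodesic path), as sets of edges: the edge sets of the paths `p` from `u` to `v` with
`1 ≤ length p = dist u v`. -/
def geodesics (G : SimpleGraph V) : Set (Finset (Sym2 V)) :=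
  {S | ∃ (u v : V) (p : G.Walk u v),
    p.IsPath ∧ 1 ≤ p.length ∧ p.length = G.dist u v ∧ S = p.edges.toFinset}

/-- `G` is a geodesic Leech graph: there is a labeling `f` of the edges by positive integers such
that the set of the weights of the geodesic paths is `{1, …, t}`, where `t` is the number of the
geodesic paths. -/
def IsGeodesicLeech (G : SimpleGraph V) : Prop :=
  ∃ f : Sym2 V → ℕ, (∀ e ∈ G.edgeSet, 1 ≤ f e) ∧
    (fun S : Finset (Sym2 V) => ∑ e ∈ S, f e) '' geodesics G = Set.Icc 1 (geodesics G).ncard

end definitions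

/-- The wheel with `m` rim vertices `some 0, …, some (m - 1)` and the hub `none`. -/
def wheel (m : ℕ) : SimpleGraph (Option (Fin m)) where
  Adj
    | none, none => False
    | none, some _ => True
    | some _, none => True
    | some i, some j => i ≠ j ∧ ((i.val + 1) % m = j.val ∨ (j.val + 1) % m = i.val)
  symm := ⟨by
    rintro (_ | i) (_ | j) h
    · exact h
    · trivial
    · trivial
    · exact ⟨h.1.symm, h.2.symm⟩⟩
  loopless := ⟨by
    rintro (_ | i) h
    · exact h
    · exact h.1 rfl⟩

instance (m : ℕ) : DecidableRel (wheel m).Adj := fun a b =>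
  match a, b with
  | none, none => inferInstanceAs (Decidable False)
  | none, some _ => inferInstanceAs (Decidable True)
  | some _, none => inferInstanceAs (Decidable True)
  | some i, some j => inferInstanceAs
      (Decidable (i ≠ j ∧ ((i.val + 1) % m = j.val ∨ (j.val + 1) % m = i.val)))

/-- The wheel `W_n` on `n` vertices. -/
def W (n : ℕ) : SimpleGraph (Option (Fin (n - 1))) := wheel (n - 1)

section general

variable {V : Type} [DecidableEq V]

theorem dist_eq_two (G : SimpleGraph V) {u w v : V} (h1 : u ≠ v) (h2 : ¬ G.Adj u v)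
    (h3 : G.Adj u w) (h4 : G.Adj w v) : G.dist u v = 2 := by
  have hle : G.dist u v ≤ 2 := by
    have := SimpleGraph.dist_le (SimpleGraph.Walk.cons h3 (SimpleGraph.Walk.cons h4 .nil))
    simpa using this
  have hr : G.Reachable u v := h3.reachable.trans h4.reachable
  have h0 : G.dist u v ≠ 0 := by
    intro h
    rcases SimpleGraph.dist_eq_zero_iff_eq_or_not_reachable.1 h with h | h
    · exact h1 h
    · exact h hr
  have h1' : G.dist u v ≠ 1 := fun h => h2 (SimpleGraph.dist_eq_one_iff_adj.1 h)
  omega

theorem leech_of_lists (G : SimpleGraph V) (f : Sym2 V → ℕ) (E : List (V × V))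
    (P : List (V × V × V)) (t : ℕ)
    (hE : ∀ a ∈ E, G.Adj a.1 a.2)
    (hP : ∀ a ∈ P, a.1 ≠ a.2.2 ∧ ¬ G.Adj a.1 a.2.2 ∧ G.Adj a.1 a.2.1 ∧ G.Adj a.2.1 a.2.2)
    (hE' : ∀ u v, G.Adj u v → (u, v) ∈ E ∨ (v, u) ∈ E)
    (hP' : ∀ u w v, u ≠ v → ¬ G.Adj u v → G.Adj u w → G.Adj w v →
      (u, w, v) ∈ P ∨ (v, w, u) ∈ P)
    (hdiam : ∀ u v, u = v ∨ G.Adj u v ∨ ∃ w, G.Adj u w ∧ G.Adj w v)
    (ht : E.length + P.length = t)
    (hw : (E.map (fun a => f s(a.1, a.2)) ++
      P.map (fun a => f s(a.1, a.2.1) + f s(a.2.1, a.2.2))).toFinset = Finset.Icc 1 t) :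
    IsGeodesicLeech G := by
  -- description of the geodesic paths
  have key : ∀ S : Finset (Sym2 V), S ∈ geodesics G ↔
      (∃ a ∈ E, S = {s(a.1, a.2)}) ∨ (∃ a ∈ P, S = {s(a.1, a.2.1), s(a.2.1, a.2.2)}) := by
    intro S
    constructor
    · rintro ⟨u, v, p, hpath, h1, hd, rfl⟩
      have hle : G.dist u v ≤ 2 := by
        rcases hdiam u v with h | h | ⟨w, hw1, hw2⟩
        · subst h; simp
        · have := SimpleGraph.dist_eq_one_iff_adj.2 h
          omega
        · have := SimpleGraph.dist_le (SimpleGraph.Walk.cons hw1 (SimpleGraph.Walk.cons hw2 .nil))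
          simpa using this
      cases p with
      | nil => simp at h1
      | cons h q =>
        cases q with
        | nil =>
          left
          rcases hE' _ _ h with h' | h'
          · exact ⟨_, h', by simp⟩
          · exact ⟨_, h', by simp [Sym2.eq_swap]⟩
        | cons h' r =>
          cases r with
          | nil =>
            right
            simp only [SimpleGraph.Walk.length_cons, SimpleGraph.Walk.length_nil] at hd
            have hne : u ≠ v := by
              rintro rfl
              simp at hd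
            have hna : ¬ G.Adj u v := by
              intro hadj
              have := SimpleGraph.dist_eq_one_iff_adj.2 hadj
              omega
            rcases hP' _ _ _ hne hna h h' with h'' | h''
            · exact ⟨_, h'', by simp⟩
            · refine ⟨_, h'', ?_⟩
              simp only [SimpleGraph.Walk.edges_cons, SimpleGraph.Walk.edges_nil,
                List.toFinset_cons, List.toFinset_nil, insert_empty_eq]
              rw [Finset.pair_comm]
              congr 1
              · exact Sym2.eq_swap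
              · exact congrArg _ Sym2.eq_swap
          | cons h'' r' =>
            simp only [SimpleGraph.Walk.length_cons] at hd
            omega
    · rintro (⟨a, ha, rfl⟩ | ⟨a, ha, rfl⟩)
      · have hadj := hE a ha
        refine ⟨a.1, a.2, SimpleGraph.Walk.cons hadj .nil, ?_, ?_, ?_, ?_⟩
        · simp [hadj.ne]
        · simp
        · rw [SimpleGraph.dist_eq_one_iff_adj.2 hadj]; simp
        · simp
      · obtain ⟨h1, h2, h3, h4⟩ := hP a ha
        refine ⟨a.1, a.2.2, SimpleGraph.Walk.cons h3 (SimpleGraph.Walk.cons h4 .nil), ?_, ?_,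
          ?_, ?_⟩
        · simp [h3.ne, h4.ne, h1]
        · simp
        · rw [dist_eq_two G h1 h2 h3 h4]; simp
        · simp
  -- the weights
  have hwt1 : ∀ a ∈ E, ∑ e ∈ ({s(a.1, a.2)} : Finset (Sym2 V)), f e = f s(a.1, a.2) := by
    intro a _; simp
  have hwt2 : ∀ a ∈ P, ∑ e ∈ ({s(a.1, a.2.1), s(a.2.1, a.2.2)} : Finset (Sym2 V)), f e
      = f s(a.1, a.2.1) + f s(a.2.1, a.2.2) := by
    intro a ha
    obtain ⟨h1, h2, h3, h4⟩ := hP a ha
    rw [Finset.sum_pair]
    intro h
    rw [Sym2.eq_iff] at h
    rcases h with ⟨h, _⟩ | ⟨h, _⟩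
    · exact h3.ne h
    · exact h1 h
  have himg : (fun S : Finset (Sym2 V) => ∑ e ∈ S, f e) '' geodesics G = Set.Icc 1 t := by
    ext k
    have hk : k ∈ Set.Icc 1 t ↔ k ∈ Finset.Icc 1 t := by simp
    rw [hk, ← hw]
    simp only [Set.mem_image, List.mem_toFinset, List.mem_append, List.mem_map]
    constructor
    · rintro ⟨S, hS, rfl⟩
      rcases (key S).1 hS with ⟨a, ha, rfl⟩ | ⟨a, ha, rfl⟩
      · left; exact ⟨a, ha, (hwt1 a ha).symm⟩
      · right; exact ⟨a, ha, (hwt2 a ha).symm⟩
    · rintro (⟨a, ha, rfl⟩ | ⟨a, ha, rfl⟩)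
      · exact ⟨_, (key _).2 (Or.inl ⟨a, ha, rfl⟩), hwt1 a ha⟩
      · exact ⟨_, (key _).2 (Or.inr ⟨a, ha, rfl⟩), hwt2 a ha⟩
  -- the number of geodesic paths
  have hsub : geodesics G ⊆ ↑((E.map (fun a : V × V => ({s(a.1, a.2)} : Finset (Sym2 V))) ++
      P.map (fun a : V × V × V =>
        ({s(a.1, a.2.1), s(a.2.1, a.2.2)} : Finset (Sym2 V)))).toFinset) := by
    intro S hS
    simp only [List.coe_toFinset, List.mem_append, List.mem_map, Set.mem_ofPred_eq]
    rcases (key S).1 hS with ⟨a, ha, rfl⟩ | ⟨a, ha, rfl⟩
    · left; exact ⟨a, ha, rfl⟩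
    · right; exact ⟨a, ha, rfl⟩
  have hfin : (geodesics G).Finite := Set.Finite.subset (Finset.finite_toSet _) hsub
  have hle : (geodesics G).ncard ≤ t := by
    have h1 := Set.ncard_le_ncard hsub (Finset.finite_toSet _)
    rw [Set.ncard_coe_finset] at h1
    have h2 := List.toFinset_card_le
      (E.map (fun a : V × V => ({s(a.1, a.2)} : Finset (Sym2 V))) ++
      P.map (fun a : V × V × V => ({s(a.1, a.2.1), s(a.2.1, a.2.2)} : Finset (Sym2 V))))
    simp only [List.length_append, List.length_map] at h2
    omega
  have hge : t ≤ (geodesics G).ncard := by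
    have h1 := Set.ncard_image_le (f := fun S : Finset (Sym2 V) => ∑ e ∈ S, f e) hfin
    rw [himg] at h1
    have : (Set.Icc 1 t).ncard = t := by
      rw [show (Set.Icc 1 t : Set ℕ) = ((Finset.Icc 1 t : Finset ℕ) : Set ℕ) by simp,
        Set.ncard_coe_finset]
      simp
    omega
  refine ⟨f, ?_, by rw [himg, le_antisymm hle hge]⟩
  intro e he
  induction e using Sym2.ind with
  | _ u v =>
    have hadj : G.Adj u v := he
    have hmem : f s(u, v) ∈ Finset.Icc 1 t := by
      rw [← hw]
      simp only [List.mem_toFinset, List.mem_append, List.mem_map]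
      left
      rcases hE' u v hadj with h | h
      · exact ⟨_, h, rfl⟩
      · exact ⟨_, h, by rw [Sym2.eq_swap]⟩
    exact (Finset.mem_Icc.1 hmem).1

end general

section wheels

/-- The labeling of a wheel with the spoke labels `a` and the rim labels `b`. -/
def lab (m : ℕ) (a b : List ℕ) : Sym2 (Option (Fin m)) → ℕ :=
  Sym2.lift ⟨fun x y =>
    match x, y with
    | none, none => 0
    | none, some i => a.getD i.val 0
    | some i, none => a.getD i.val 0
    | some i, some j =>
        (if (i.val + 1) % m = j.val then b.getD i.val 0 else 0) +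
        (if (j.val + 1) % m = i.val then b.getD j.val 0 else 0), by
    rintro (_ | i) (_ | j)
    · rfl
    · rfl
    · rfl
    · exact Nat.add_comm _ _⟩

/-- The edges. -/
def edgeL (m : ℕ) : List (Option (Fin m) × Option (Fin m)) :=
  (List.finRange m).map (fun i => (none, some i)) ++
  ((List.finRange m).flatMap fun i => (List.finRange m).filterMap fun j =>
    if (i.val + 1) % m = j.val then some (some i, some j) else none)

/-- The geodesic paths with two edges. -/
def pathL (m : ℕ) : List (Option (Fin m) × Option (Fin m) × Option (Fin m)) :=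
  ((List.finRange m).flatMap fun i => (List.finRange m).filterMap fun j =>
    if i < j ∧ (i.val + 1) % m ≠ j.val ∧ (j.val + 1) % m ≠ i.val then
      some (some i, none, some j) else none) ++
  ((List.finRange m).flatMap fun i => (List.finRange m).flatMap fun j =>
    (List.finRange m).filterMap fun k =>
    if (i.val + 1) % m = j.val ∧ (j.val + 1) % m = k.val then
      some (some i, some j, some k) else none)

instance (m : ℕ) (u v : Option (Fin m)) : Decidable ((u, v) ∈ edgeL m) := inferInstance

instance (m : ℕ) (u w v : Option (Fin m)) : Decidable ((u, w, v) ∈ pathL m) := inferInstance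

theorem W7 : IsGeodesicLeech (W 7) :=
  leech_of_lists (V := Option (Fin 6)) (wheel 6)
    (lab 6 [1, 2, 3, 15, 23, 7] [5, 6, 12, 8, 13, 14]) (edgeL 6) (pathL 6) 27
    (by decide +kernel) (by decide +kernel) (by decide +kernel) (by decide +kernel)
    (by decide +kernel) (by decide +kernel) (by decide +kernel)

theorem W8 : IsGeodesicLeech (W 8) :=
  leech_of_lists (V := Option (Fin 7)) (wheel 7)
    (lab 7 [1, 2, 3, 5, 21, 27, 10] [8, 9, 11, 14, 19, 16, 18]) (edgeL 7) (pathL 7) 35
    (by decide +kernel) (by decide +kernel) (by decide +kernel) (by decide +kernel)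
    (by decide +kernel) (by decide +kernel) (by decide +kernel)

theorem W9 : IsGeodesicLeech (W 9) :=
  leech_of_lists (V := Option (Fin 8)) (wheel 8)
    (lab 8 [1, 2, 3, 5, 8, 24, 30, 12] [13, 28, 16, 23, 19, 18, 22, 21]) (edgeL 8) (pathL 8) 44
    (by decide +kernel) (by decide +kernel) (by decide +kernel) (by decide +kernel)
    (by decide +kernel) (by decide +kernel) (by decide +kernel)

end wheels

/-- The wheels `W_7`, `W_8`, `W_9` are geodesic Leech graphs; so the assertion of Q1 is false. -/
theorem result :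
    IsGeodesicLeech (W 7) ∧ IsGeodesicLeech (W 8) ∧ IsGeodesicLeech (W 9) ∧
    ¬ (∀ n : ℕ, 7 ≤ n → ¬ IsGeodesicLeech (W n)) :=
  ⟨W7, W8, W9, fun h => h 7 le_rfl W7⟩

end Pool.Agent.Results.MP_071a69_co.Wheels
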